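import Pool.Agent.Q101.MultiC

/-!
# MP_c73427: multi-reflexive free locally convex spaces are Schwartz spaces

`Q101.Multi.IsFreeLCS X L ι`, `Q101.Multi.IsMultiReflexive L` and `Q101.Multi.IsSchwartz L` are the
notions of the problem, verbatim.
-/

set_option autoImplicit false

namespace Pool.Agent.Results.MP_c73427_an.MultiIsSchwartz

open Q101.Multi

universe u

/-- **Full answer (there is no such space).** For every Tychonoff space `X`, if the free locally
convex space `L(X)` is multi-reflexive then it is a Schwartz space. -/
theorem result (X : Type u) [TopologicalSpace X] [T35Space X] (L : Type u) [AddCommGroup L]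
    [Module ℝ L] [TopologicalSpace L] [IsTopologicalAddGroup L] [ContinuousSMul ℝ L]
    [LocallyConvexSpace ℝ L] [T2Space L] (ι : X → L) (hL : IsFreeLCS X L ι)
    (hm : IsMultiReflexive L) : IsSchwartz L :=
  isSchwartz_of_multiReflexive hL hm

end Pool.Agent.Results.MP_c73427_an.MultiIsSchwartz
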